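import Pool.Agent.H7.KR.Stmts

/-!
# Board `kr` (helper7), row NBR: numbers about `bal`
-/

set_option autoImplicit false

namespace Pool.KR

open Pool.Agent.H23.KT Pool.Agent.H46.KW Pool.KQ

theorem nbr_two (p a : ℕ) : bal (p + 3) ((p + 3) * a + (p + 2)) = a * (a + 1) ^ (p + 2) := by
  have h1 : ((p + 3) * a + (p + 2)) / (p + 3) = a := by
    rw [Nat.mul_add_div (by omega), Nat.div_eq_of_lt (by omega), Nat.add_zero]
  have h2 : ((p + 3) * a + (p + 2)) % (p + 3) = p + 2 := by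
    rw [Nat.mul_add_mod, Nat.mod_eq_of_lt (by omega)]
  unfold bal
  rw [h1, h2, show p + 3 - (p + 2) = 1 by omega, pow_one]

theorem nbr_four (p a N : ℕ) (h : (p + 2) * a ≤ N) :
    (a : ℝ) * ((bal (p + 2) (N + 1) : ℝ) - bal (p + 2) N) ≤ bal (p + 2) N := by
  have hq : 1 ≤ p + 2 := by omega
  have h1 : (bal (p + 2) (N + 1) : ℝ) * ((N / (p + 2) : ℕ) : ℝ) =
      bal (p + 2) N * (((N / (p + 2) : ℕ) : ℝ) + 1) := by
    exact_mod_cast bal_step hq N
  have h2 : (bal (p + 2) N : ℝ) ≤ bal (p + 2) (N + 1) := by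
    exact_mod_cast bal_mono_succ hq N
  have h3 : (a : ℝ) ≤ ((N / (p + 2) : ℕ) : ℝ) := by
    have : a ≤ N / (p + 2) := (Nat.le_div_iff_mul_le (by omega)).2 (by rw [mul_comm]; exact h)
    exact_mod_cast this
  have h4 : (a : ℝ) * ((bal (p + 2) (N + 1) : ℝ) - bal (p + 2) N) ≤
      ((N / (p + 2) : ℕ) : ℝ) * ((bal (p + 2) (N + 1) : ℝ) - bal (p + 2) N) :=
    mul_le_mul_of_nonneg_right h3 (by linarith)
  linarith

theorem nbr_five (p a N : ℕ) (ha : 1 ≤ a) (h : N < (p + 2) * (2 * a + 1)) :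
    (bal (p + 2) N : ℝ) ≤ (3 * a) ^ (p + 2) := by
  have h1 : N / (p + 2) ≤ 2 * a :=
    Nat.lt_succ_iff.1 ((Nat.div_lt_iff_lt_mul (by omega)).2 (by rw [mul_comm]; exact h))
  have h2 : N / (p + 2) + 1 ≤ 3 * a := by omega
  have h3 : N % (p + 2) < p + 2 := Nat.mod_lt _ (by omega)
  have h4 : bal (p + 2) N ≤ (3 * a) ^ (p + 2) := by
    unfold bal
    calc (N / (p + 2)) ^ (p + 2 - N % (p + 2)) * (N / (p + 2) + 1) ^ (N % (p + 2))
        ≤ (3 * a) ^ (p + 2 - N % (p + 2)) * (3 * a) ^ (N % (p + 2)) :=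
          Nat.mul_le_mul (Nat.pow_le_pow_left (by omega) _) (Nat.pow_le_pow_left h2 _)
      _ = (3 * a) ^ (p + 2) := by
          rw [← pow_add]
          congr 1
          omega
  exact_mod_cast h4

theorem nbr : NBRStmt := by
  refine ⟨fun p a => bal_mul_self (by omega) (a + 1), nbr_two, ?_, nbr_four, nbr_five⟩
  intro p a k N h
  calc k * bal (p + 2) N ≤ bal (p + 2 + 1) (N + k) := bal_mul (by omega) k N
    _ ≤ bal (p + 3) ((p + 3) * a + (p + 2)) := bal_mono (by omega) h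

end Pool.KR
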